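import Mathlib
import Pool.Agent.Lib.helper18.Gr3

set_option autoImplicit false

open Classical Matrix SimpleGraph

namespace Pool.Agent.Results.MP_cd2ba9_co.Mate

/-- The multicone graph: `K_w` joined to `m` disjoint copies of the cycle `C_n`. -/
def multicone (w m n : ℕ) : SimpleGraph (Fin w ⊕ Fin m × Fin n) where
  Adj x y := match x, y with
    | .inl a, .inl b => a ≠ b
    | .inr a, .inr b => a.1 = b.1 ∧ (cycleGraph n).Adj a.2 b.2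
    | _, _ => True
  symm := ⟨by
    rintro (a | a) (b | b) h
    · exact Ne.symm h
    · trivial
    · trivial
    · exact ⟨h.1.symm, h.2.symm⟩⟩
  loopless := ⟨by
    rintro (a | a) h
    · exact h rfl
    · exact h.2.ne rfl⟩

/-- Adjacency spectrum, with multiplicities. -/
noncomputable def spec {V : Type} [Fintype V] (G : SimpleGraph V) : Multiset ℝ :=
  (G.adjMatrix ℝ).charpoly.roots

def l : List (Fin 8 × Fin 8) := [(3, 1), (1, 0), (7, 5), (7, 1), (7, 3), (6, 1), (7, 6), (7, 4), (2, 1)]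
def f (a b : Fin 8) : Bool := (a, b) ∈ l || (b, a) ∈ l
def H0 : SimpleGraph (Fin 8) := H18Gr.mk f (by decide +kernel) (by decide +kernel)

def g : Fin 2 ⊕ Fin 1 × Fin 6 → Fin 2 ⊕ Fin 1 × Fin 6 → Bool
  | .inr a, .inr b => a.2 - b.2 == 2 || a.2 - b.2 == 3 || a.2 - b.2 == 4
  | _, _ => false

def e : Fin 2 ⊕ Fin 1 × Fin 6 → Fin 8
  | .inl a => a.castLE (by decide)
  | .inr a => ⟨a.2.val + 2, by omega⟩

lemma eqg : (multicone 2 1 6)ᶜ = H18Gr.mk g (by decide +kernel) (by decide +kernel) := by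
  ext (a | ⟨i, a⟩) (b | ⟨j, b⟩)
  · simp [multicone, g]
  · simp [multicone, g]
  · simp [multicone, g]
  · simp only [compl_adj, multicone, H18Gr.mk_adj, cycleGraph_adj]
    revert i a j b; decide +kernel

lemma spec_eq {V : Type} [Fintype V] [DecidableEq V] (G : SimpleGraph V) :
    spec G = (G.adjMatrix ℝ).charpoly.roots := by unfold spec; congr

def P2 : Matrix (Fin 8) (Fin 8) ℤ :=
  !![0, 0, 1, 0, 0, 0, 0, 0; 0, 0, 0, 1, 0, 0, 0, 0; 1, -1, 0, 0, -1, -1, -1, 1; 1, 1, 0, 0, 1,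
    0, -1, 0; 1, -1, 0, 0, 0, 1, 0, -1; 1, 1, 0, 0, -1, -1, 1, -1; 1, -1, 0, 0, 1, 0, 1, 0; 1, 1,
    0, 0, 0, 1, 0, 1]
def Q2 : Matrix (Fin 8) (Fin 8) ℤ :=
  !![0, 0, 1, 1, 1, 1, 1, 1; 0, 0, -1, 1, -1, 1, -1, 1; 6, 0, 0, 0, 0, 0, 0, 0; 0, 6, 0, 0, 0,
    0, 0, 0; 0, 0, -1, 2, -1, -1, 2, -1; 0, 0, -1, -1, 2, -1, -1, 2; 0, 0, -1, -2, -1, 1, 2, 1; 0,
    0, 1, -1, -2, -1, 1, 2]
def d : Fin 8 → ℤ := ![3, 1, 0, 0, 0, 0, -2, -2]

theorem result : ∃ w m n : ℕ, 1 ≤ w ∧ 1 ≤ m ∧ 3 ≤ n ∧ ∃ (N : ℕ) (H : SimpleGraph (Fin N)),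
    spec H = spec (multicone w m n)ᶜ ∧ IsEmpty (H ≃g (multicone w m n)ᶜ) := by
  refine ⟨2, 1, 6, by norm_num, le_rfl, by norm_num, 8, H0, ?_, ⟨fun φ => ?_⟩⟩
  · rw [eqg, spec_eq, spec_eq]
    unfold H0
    rw [H18Gr.adjMatrix_mk, H18Gr.adjMatrix_mk, H18Gr.roots_cert (H18Gr.zm f)
      !![1, -1, -1, 1, 1, 0, 1, 1; 3, -1, 0, 0, 0, 0, -2, -2; 1, -1, 1, 0, 0, 0, 1, 1; 2, 0, 0, -1,
    -1, -1, 1, 0; 1, 1, 0, 1, 0, 0, 0, -1; 1, 1, 0, 0, 1, 0, 0, -1; 2, 0, 0, 0, 0, 1, 1, 0; 3, 1,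
    0, 0, 0, 0, 0, 2]
      !![1, 3, 1, 2, 1, 1, 2, 3; -5, -5, -5, 0, 5, 5, 0, 5; -10, 0, 20, -5, 5, 5, -5, 0; 5, 0, 5,
    -5, 20, -10, -5, 0; 5, 0, 5, -5, -10, 20, -5, 0; -5, 0, -5, -10, -5, -5, 20, 0; 3, -6, 3, 6,
    3, 3, 6, -6; 1, -2, 1, -3, -4, -4, -3, 8]
      d 30 (by norm_num) (by decide +kernel) (by decide +kernel),
      H18Gr.roots_cert (H18Gr.zm g) (Matrix.of fun i j => P2 (e i) (e j))
      (Matrix.of fun i j => Q2 (e i) (e j)) (fun i => d (e i)) 6 (by norm_num)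
      (by decide +kernel) (by decide +kernel)]
    congr 1
  · have h : ∀ a, ∃ b, f a b = true := by decide +kernel
    obtain ⟨b, hb⟩ := h (φ.symm (.inl 0))
    have := φ.map_adj_iff.2 (show H0.Adj _ _ from hb)
    rw [φ.apply_symm_apply] at this
    generalize φ b = y at this
    rcases y with y | y <;> simp [multicone] at this

end Pool.Agent.Results.MP_cd2ba9_co.Mate
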